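import Pool.Agent.MP_3ee8cb_gt.DN.Spec2
import Pool.Agent.MP_3ee8cb_gt.TB.Fin

/-! The hinge inequality in frames and the diameter of the feet of a front. -/

namespace Pool.Agent.MP_3ee8cb_gt.DN

open Set Real
open scoped RealInnerProductSpace

variable [Dim]

theorem sHN : SHN := by
  intro h C Λ _ _ Ψ q _ m lg a ho lk ha hc hd y u v s t hu hv hs ht
  have eu : h y (m.R y u) (m.R y u) = 1 := by rw [lk.orth, real_inner_self_eq_norm_sq, hu]; norm_num
  have ev : h y (m.R y v) (m.R y v) = 1 := by rw [lk.orth, real_inner_self_eq_norm_sq, hv]; norm_num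
  have h1 := TB.hinge dm h Λ Ψ a q.rp ha hc ⟨(y, m.R y u), eu⟩ ⟨(y, m.R y v), ev⟩ rfl s t hs ht
  have f1 := lk.flow s ⟨(y, m.R y u), eu⟩
  have f2 := lk.flow t ⟨(y, m.R y v), ev⟩
  simp only [ho.SR] at f1 f2
  simp only [lk.orth] at h1
  rw [hd, f1, f2]
  exact h1

namespace D0

variable {m : MF} {lg : V × V → V} {σ : V → V × V} {a T : ℝ}

/-- The median inequality. -/
theorem median (hj : m.Jac) (hl : m.Had lg) (hi : Hin m lg a) (hT : 0 ≤ T) (y x : V) {w : V}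
    (hw : ‖w‖ = 1) : 2 * cosh (a * T) * cosh (a * ‖lg (y, x)‖) ≤
      cosh (a * ‖lg ((m.Z T (y, w)).1, x)‖) + cosh (a * ‖lg ((m.Z T (y, -w)).1, x)‖) := by
  obtain ⟨v, hv, e⟩ : ∃ v : V, ‖v‖ = 1 ∧ lg (y, x) = ‖lg (y, x)‖ • v := by
    by_cases h0 : lg (y, x) = 0
    · exact ⟨w, hw, by simp [h0]⟩
    · have hn : ‖lg (y, x)‖ ≠ 0 := norm_ne_zero_iff.2 h0
      refine ⟨‖lg (y, x)‖⁻¹ • lg (y, x), ?_, ?_⟩
      · rw [norm_smul, norm_inv, norm_norm, inv_mul_cancel₀ hn]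
      · rw [smul_smul, mul_inv_cancel₀ hn, one_smul]
  have hx : (m.Z ‖lg (y, x)‖ (y, v)).1 = x := by
    have h1 := hl.ex y x
    rw [e, hj.scale, mul_one] at h1
    exact h1
  have h1 := hi y w v T _ hw hv hT (norm_nonneg (lg (y, x)))
  have h2 := hi y (-w) v T _ (by rw [norm_neg, hw]) hv hT (norm_nonneg (lg (y, x)))
  rw [hx] at h1 h2
  rw [inner_neg_left] at h2
  linarith

theorem symm (hj : m.Jac) (hl : m.Had lg) (y z : V) : ‖lg (z, y)‖ = ‖lg (y, z)‖ := by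
  rw [hl.rev y z, norm_neg, hj.norm]

theorem front (hj : m.Jac) (hl : m.Had lg) (hf : m.Front σ) (hi : Hin m lg a) (hT : 0 ≤ T)
    {v : V} (hv : ‖v‖ = 1) (x : V) : 2 * cosh (a * T) * cosh (a * ‖lg ((σ v).1, x)‖) ≤
      cosh (a * ‖lg (zz m σ T v, x)‖) + cosh (a * ‖lg (zz m σ T (-v), x)‖) := by
  have h0 : v ≠ 0 := by
    rintro rfl
    simp at hv
  have h1 : σ (-v) = ((σ v).1, -(σ v).2) := by simpa using hf.hom (-1) v (by norm_num) h0
  have h2 := median hj hl hi hT (σ v).1 x ((hf.norm v h0).trans hv)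
  rw [zz, zz, h1]
  exact h2

omit [Dim] in
theorem le_of_cosh {x : ℝ} (h : cosh x ≤ 2) : x ≤ 3 / 2 := by
  by_contra hx
  have h1 : exp (1 + 1 / 2) ≤ exp x := exp_le_exp.2 (by linarith [not_le.1 hx])
  rw [exp_add] at h1
  have h2 := exp_one_gt_d9
  have h3 := add_one_le_exp (1 / 2 : ℝ)
  have h4 := exp_pos (-x)
  rw [cosh_eq] at h
  nlinarith

end D0

open D0 in
theorem sD0 : SD0 := by
  intro m lg σ T _ hj _ hl hf _ hT hw a ha hi v v' hv hv'
  have hn : ∀ {u : V}, ‖u‖ = 1 → ‖-u‖ = 1 := fun hu => by rw [norm_neg, hu]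
  have hd : ∀ u u' : V, ‖u‖ = 1 → ‖u'‖ = 1 →
      cosh (a * ‖lg (zz m σ T u, zz m σ T u')‖) ≤ 2 * cosh (a * T) ^ 2 - 1 := fun u u' hu hu' => by
    have h1 := hw.diam u u' hu hu'
    have h2 : cosh (a * ‖lg (zz m σ T u, zz m σ T u')‖) ≤ cosh (2 * (a * T)) := by
      rw [cosh_le_cosh, abs_of_nonneg (mul_nonneg ha.le (norm_nonneg _)),
        abs_of_nonneg (by positivity)]
      nlinarith
    rw [cosh_two_mul, sinh_sq] at h2
    linarith
  have h1 := front hj hl hf hi hT.le hv (σ v').1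
  have h2 := front hj hl hf hi hT.le hv' (zz m σ T v)
  have h3 := front hj hl hf hi hT.le hv' (zz m σ T (-v))
  rw [symm hj hl (σ v').1 (zz m σ T v), symm hj hl (σ v').1 (zz m σ T (-v))] at h1
  have a1 := hd _ _ hv' hv
  have a2 := hd _ _ (hn hv') hv
  have a3 := hd _ _ hv' (hn hv)
  have a4 := hd _ _ (hn hv') (hn hv)
  have hc := cosh_pos (a * T)
  refine le_of_cosh ?_
  have h4 := mul_le_mul_of_nonneg_left h1 hc.le
  by_contra hx
  have h5 := mul_lt_mul_of_pos_left (not_le.1 hx) (mul_pos hc hc)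
  nlinarith

end Pool.Agent.MP_3ee8cb_gt.DN
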